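import Pool.Agent.X145.KW.Main

set_option autoImplicit false
open MeasureTheory Filter Topology

/-!
# MP_6cdded_pr: the k-width of a random set of intervals

`law n` is the law of `n` independent pairs of independent uniform variables on `(0,1)`; the pair
`w i` encodes the random interval `[min, max]`. `setRel w i j` : interval `i` lies entirely to the
left of interval `j`. `kWidth r k` is the least number of classes in a partition of the index set
into `k`-ary chains of the relation `r` (`Pool/Agent/X145/KW/Comb.lean`), and `meanSet k n` is the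
expected `k`-width of the set of `n` random intervals.

For every `k ≥ 1`: `E[k-wd(W_n)] / n → 1/(k+1)`, and `E[k-wd(W_n)] ≥ n/(k+1)` for every `n`.
-/

namespace Pool.Agent.Results.MP_6cdded_pr.SetLimit

open Pool.Agent.X145.KW

theorem result (k : ℕ) (_hk : 1 ≤ k) :
    Tendsto (fun n : ℕ => (∫ w, (kWidth (setRel w) k : ℝ) ∂(law n)) / n) atTop
      (𝓝 (1 / ((k : ℝ) + 1))) ∧
    ∀ n : ℕ, (n : ℝ) / (k + 1) ≤ ∫ w, (kWidth (setRel w) k : ℝ) ∂(law n) :=
  ⟨set_limit k, lower k⟩

end Pool.Agent.Results.MP_6cdded_pr.SetLimit
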